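import Pool.Agent.H207.TP.Inst2

/-!
# Collet-Eckmann polynomials in families, in strata and in slices of critical orbit relations

Let `T` be a polynomial of degree `d ≥ 2` all of whose critical points escape, are attracted by a sink or
satisfy the Collet-Eckmann condition (any number of critical points with any multiplicities, no condition
of slow recurrence, nothing is assumed about the Julia set).

(0) The space of all polynomials. `T` is a Lebesgue density point of the set of the hyperbolic
polynomials, in the space of the coefficients, and the non-hyperbolic polynomials with the properties of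
`T` form a null set. (For the full space this is our LebesgueDensityColletEckmann.)

(1) Families. Let `p` be a holomorphic family of polynomials, `T = p (x)`, which is transversal at `x`:
for every critical point `c` which neither escapes nor is attracted there is a tangent vector `H` of the
family with `∑ j, H (T ^ j c) / (T ^ j)' (T c) ≠ 0`. Then `x` is a Lebesgue density point of the
hyperbolic parameters; in the complex lines through `x` outside at most `2 (d - 1)` proper subspaces the
area of the other parameters at distance less than `r` from `x` is at most `C r ^ (2 + c)`. So in every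
holomorphic family the non-hyperbolic parameters of this kind form a null set.

(2) Strata. Let `T` be any polynomial of degree `d` whose escaping or attracted points are dense in the
plane. The polynomials close to `T` which have the same multiplicities of the critical points,
coincidences of the critical values and critical orbit relations `T ^ n (c) = T ^ n' (c')` of a finite list
form a complex manifold of the dimension `k + 2 - N` (`k` the number of the critical values, `N` the number
of the relations), if the relations are independent: certain explicit formal sums of the points of the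
orbits are linearly independent (for example if the relations are `T ^ n (c) = c'`, `n ≥ 1`, with different
critical points `c'`: polynomials with several superattracting cycles of given periods). The families given
by the charts are transversal at all the polynomials of the kind above for which the critical points of
the relations escape, are attracted or have infinite orbits. So (1) applies there.

(3) Slices. Let `p` be a holomorphic family with `N` independent critical orbit relations between simple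
critical points, such that the tangent vectors and the infinitesimal affine conjugations together span a
space of the largest possible dimension `d + 1 - N`. Then `p` is transversal at all the polynomials of the
kind above for which the critical points of the relations escape, are attracted or have infinite orbits,
and (1) applies. Examples: the space of all the polynomials of degree `d`, the monic centred ones, and the
hypersurfaces of those with a periodic simple critical point.

(4) Milnor's curves. Let `s ↦ (a (s), b (s))` be a holomorphic parametrisation, with non-vanishing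
derivative, of a piece of the curve of the cubic polynomials `z ^ 3 - 3 a ^ 2 z + b` for which the critical
point `a` is periodic of a period which divides `n`. Then every parameter at which the other critical point
`- a` satisfies the Collet-Eckmann condition is a Lebesgue density point of the hyperbolic parameters, and
the non-hyperbolic ones of these parameters form a null set.
-/

set_option autoImplicit false

open MeasureTheory Filter Metric Topology Polynomial

namespace Pool.Agent.Results.MP_28f8a1_an.ColletEckmannFamilies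

/-- The space of the coefficients of the polynomials of degree at most `d`. -/
abbrev Coeffs (d : ℕ) : Type := Fin (d + 1) → ℂ

/-- The polynomial with the coefficients `a 0, …, a d`. -/
noncomputable def poly {d : ℕ} (a : Coeffs d) : ℂ[X] := ∑ i : Fin (d + 1), C (a i) * X ^ (i : ℕ)

/-- The polynomial as a map of the plane. -/
noncomputable def map {d : ℕ} (a : Coeffs d) : ℂ → ℂ := fun z => (poly a).eval z

/-- The point `c` is a critical point. -/
def Critical {d : ℕ} (a : Coeffs d) (c : ℂ) : Prop := (derivative (poly a)).eval c = 0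

/-- The orbit of `z` escapes to infinity or is attracted by a sink. -/
def Tame {d : ℕ} (a : Coeffs d) (z : ℂ) : Prop :=
  Tendsto (fun k : ℕ => ‖(map a)^[k] z‖) atTop atTop ∨
    ∃ n : ℕ, 0 < n ∧ ∃ x : ℂ, (map a)^[n] x = x ∧ ‖deriv ((map a)^[n]) x‖ < 1 ∧
      Tendsto (fun k : ℕ => (map a)^[n * k] z) atTop (𝓝 x)

/-- The coefficients of the hyperbolic polynomials of degree `d`: every critical point escapes or is
attracted by a sink. -/
def hyperbolic (d : ℕ) : Set (Coeffs d) :=
  {a | a (Fin.last d) ≠ 0 ∧ ∀ c : ℂ, Critical a c → Tame a c}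

/-- The Collet-Eckmann condition for the critical point `c`: the derivatives of the iterates at the
critical value grow exponentially. -/
def CE {d : ℕ} (a : Coeffs d) (c : ℂ) : Prop :=
  ∃ μ : ℝ, 1 < μ ∧ ∀ᶠ n : ℕ in atTop, μ ^ n ≤ ‖deriv ((map a)^[n]) (map a c)‖

/-- A polynomial of degree `d` such that every critical point escapes, is attracted or is
Collet-Eckmann. -/
def TameOrCE {d : ℕ} (a : Coeffs d) : Prop :=
  a (Fin.last d) ≠ 0 ∧ ∀ c : ℂ, Critical a c → Tame a c ∨ CE a c

/-- The family `p` is transversal at `x`: every critical point `c` which neither escapes nor is attracted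
is moved by some tangent vector `H` of the family. The sum measures how fast the orbit of `c` leaves the
moving Julia set under the deformation `H`. -/
def Transversal {d n : ℕ} (p : (Fin n → ℂ) → Coeffs d) (x : Fin n → ℂ) : Prop :=
  ∀ c : ℂ, Critical (p x) c → ¬ Tame (p x) c → ∃ v : Fin n → ℂ,
    ∑' j : ℕ, map (fderiv ℂ p x v) ((map (p x))^[j] c) /
      deriv ((map (p x))^[j]) (map (p x) c) ≠ 0

/-- `a` is a Lebesgue density point of `S`, with a power rate in the complex lines through `a` outside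
at most `k` proper subspaces (`volume` is an outer measure on the sets which are not measurable). -/
def DensityOne {n : ℕ} (S : Set (Fin n → ℂ)) (k : ℕ) (a : Fin n → ℂ) : Prop :=
  (∃ 𝒱 : Finset (Submodule ℂ (Fin n → ℂ)), 𝒱.card ≤ k ∧ (∀ V ∈ 𝒱, V ≠ ⊤) ∧
    ∀ b : Fin n → ℂ, (∀ V ∈ 𝒱, b ∉ V) →
      ∃ c > (0 : ℝ), ∃ C > (0 : ℝ), ∃ r₁ > (0 : ℝ), ∀ r : ℝ, 0 < r → r < r₁ →
        volume {s : ℂ | ‖s‖ < r ∧ a + s • b ∉ S} ≤ ENNReal.ofReal (C * r ^ ((2 : ℝ) + c))) ∧
  Tendsto (fun r : ℝ => volume (ball a r \ S) / volume (ball a r)) (𝓝[>] 0) (𝓝 0)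

/-- A critical orbit relation `T ^ n (c i) = T ^ n' (c i')` between marked critical points. -/
structure OrbitRelation (r : ℕ) where
  i : Fin r
  n : ℕ
  i' : Fin r
  n' : ℕ

/-- The relation holds for the critical points `c i`. -/
def OrbitRelation.Holds {d r : ℕ} (ρ : OrbitRelation r) (a : Coeffs d) (c : Fin r → ℂ) : Prop :=
  (map a)^[ρ.n] (c ρ.i) = (map a)^[ρ.n'] (c ρ.i')

/-- Each of the two critical points of the relation escapes, is attracted or has an infinite orbit. -/
def OrbitRelation.Free {d r : ℕ} (ρ : OrbitRelation r) (a : Coeffs d) (c : Fin r → ℂ) : Prop :=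
  (Tame a (c ρ.i) ∨ Function.Injective fun j => (map a)^[j] (c ρ.i)) ∧
    (Tame a (c ρ.i') ∨ Function.Injective fun j => (map a)^[j] (c ρ.i'))

/-- The formal sum of the points `c, T (c), …, T ^ (n - 1) (c)` which belongs to the point
`T ^ n (c)`. -/
noncomputable def formalSum {d : ℕ} (a : Coeffs d) (c : ℂ) : ℕ → (ℂ →₀ ℂ)
  | 0 => Finsupp.single c 1
  | n + 1 => (derivative (poly a)).eval ((map a)^[n] c) •
      (formalSum a c n - Finsupp.single ((map a)^[n] c) 1)

/-- The relations are independent: their formal sums are linearly independent, or all the relations are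
of the form `T ^ n (c i) = c i'`, `n ≥ 1`, with different `i'`. -/
def Independent {d r N : ℕ} (a : Coeffs d) (c : Fin r → ℂ) (ρ : Fin N → OrbitRelation r) : Prop :=
  (LinearIndependent ℂ fun l => formalSum a (c (ρ l).i) (ρ l).n -
    formalSum a (c (ρ l).i') (ρ l).n') ∨
  ((∀ l, 1 ≤ (ρ l).n ∧ (ρ l).n' = 0) ∧ Function.Injective fun l => (ρ l).i')

/-- The polynomial `b` with the critical points `c i` satisfies the conditions of the stratum of the
polynomial `a` with the critical points `e i`: the multiplicities of the critical points, the coincidences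
of the critical values and the relations. -/
def InStratum {d r N : ℕ} (a : Coeffs d) (e : Fin r → ℂ) (ρ : Fin N → OrbitRelation r) (b : Coeffs d)
    (c : Fin r → ℂ) : Prop :=
  (∀ i, (X - C (c i)) ^ (derivative (poly a)).rootMultiplicity (e i) ∣ derivative (poly b)) ∧
  (∀ i j, map a (e i) = map a (e j) → map b (c i) = map b (c j)) ∧ ∀ l, (ρ l).Holds b c

/-- `Ψ` is a holomorphic chart of the stratum near `a` with the holomorphic critical points `c`: an
injective holomorphic immersion of an open set `U ∋ 0` whose image consists, near `a`, of the polynomials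
in the stratum. -/
def IsChart {d r N n : ℕ} (a : Coeffs d) (e : Fin r → ℂ) (ρ : Fin N → OrbitRelation r)
    (Ψ : (Fin n → ℂ) → Coeffs d) (c : (Fin n → ℂ) → Fin r → ℂ) (U : Set (Fin n → ℂ)) : Prop :=
  IsOpen U ∧ 0 ∈ U ∧ DifferentiableOn ℂ Ψ U ∧ DifferentiableOn ℂ c U ∧ Ψ 0 = a ∧ c 0 = e ∧
    Set.InjOn Ψ U ∧ (∀ t ∈ U, Function.Injective (fderiv ℂ Ψ t)) ∧
    (∀ t ∈ U, InStratum a e ρ (Ψ t) (c t)) ∧
    ∃ ε > (0 : ℝ), ∀ (b : Coeffs d) (c' : Fin r → ℂ), ‖b - a‖ < ε → ‖c' - e‖ < ε →
      InStratum a e ρ b c' → ∃ t ∈ U, Ψ t = b ∧ c t = c'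

/-- The family `p`, with the marked critical points `c` and the `N` relations `ρ`, is a slice of the
largest possible dimension at `x`: near `x` the points `c i` are critical and the relations hold; at `x` the
points `c i` are different simple critical points, the relations are free and independent, and the tangent
vectors of the family and the infinitesimal conjugations, by the vector fields `α + β z`, span a space of
dimension `d + 1 - N`. -/
def IsSlice {d m s N : ℕ} (p : (Fin m → ℂ) → Coeffs d) (c : (Fin m → ℂ) → Fin s → ℂ)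
    (ρ : Fin N → OrbitRelation s) (x : Fin m → ℂ) : Prop :=
  DifferentiableAt ℂ p x ∧ DifferentiableAt ℂ c x ∧
  (∀ᶠ y in 𝓝 x, (∀ i, Critical (p y) (c y i)) ∧ ∀ l, (ρ l).Holds (p y) (c y)) ∧
  Function.Injective (c x) ∧ (∀ i, (derivative (derivative (poly (p x)))).eval (c x i) ≠ 0) ∧
  (∀ l, (ρ l).Free (p x) (c x)) ∧ Independent (p x) (c x) ρ ∧
  Module.finrank ℂ (Submodule.span ℂ {H : ℂ[X] | ∃ (v : Fin m → ℂ) (α β : ℂ),
    H = poly (fderiv ℂ p x v) +
      (C α + C β * poly (p x) - derivative (poly (p x)) * (C α + C β * X))}) + N = d + 1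

/-- The polynomial `z ^ 3 - 3 a ^ 2 z + b`, with the critical points `a` and `- a`. -/
def cubic (a b : ℂ) : Coeffs 3 := ![b, -3 * a ^ 2, 0, 1]

/-! ### transfer -/

open Pool.Agent.H207.TF Pool.Agent.H207.TP

theorem coeff_last {d : ℕ} (a : Coeffs d) : (poly a).coeff d = a (Fin.last d) := by
  change (Pool.Agent.H211.LD.pol a).coeff d = _
  rw [Pool.Agent.H211.LD.pol_coeff, dif_pos (Nat.lt_succ_self d)]
  rfl

theorem deg_iff {d : ℕ} (hd : 2 ≤ d) (a : Coeffs d) :
    (poly a).natDegree = d ↔ a (Fin.last d) ≠ 0 := by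
  rw [← coeff_last a]
  constructor
  · intro h h0
    have h1 : (poly a).leadingCoeff = 0 := by rw [leadingCoeff, h, h0]
    rw [leadingCoeff_eq_zero] at h1
    rw [h1, natDegree_zero] at h
    omega
  · intro h
    exact le_antisymm (Pool.Agent.H211.LD.pol_natDegree_le _) (le_natDegree_of_ne_zero h)

theorem hyp_eq {d : ℕ} (hd : 2 ≤ d) : hyperbolic d = hypP d := by
  ext a
  exact and_congr (deg_iff hd a).symm Iff.rfl

theorem formalSum_eq {d : ℕ} (a : Coeffs d) (c : ℂ) (n : ℕ) :
    formalSum a c n = dvP (poly a) c n := by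
  induction n with
  | zero => rfl
  | succ n ih =>
    rw [formalSum, dvP, ih]
    rfl

theorem ce_data {d : ℕ} (hd : 2 ≤ d) {a : Coeffs d} (h : TameOrCE a) :
    (poly a).natDegree = d ∧
    volume {z : ℂ | ¬ (Esc (poly a) z ∨ Atr (poly a) z)} = 0 ∧
    (∀ c : ℂ, (derivative (poly a)).eval c = 0 →
      (Esc (poly a) c ∨ Atr (poly a) c) ∨ Smb (poly a) c) ∧
    ∃ μ : ℝ, 1 < μ ∧ ∃ᶠ n : ℕ in atTop, ∀ c : ℂ, (derivative (poly a)).eval c = 0 →
      (Esc (poly a) c ∨ Atr (poly a) c) ∨
        ∃ m ≤ n, μ ^ n ≤ ‖deriv ((ev (poly a))^[m]) ((poly a).eval c)‖ := by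
  have hT := (deg_iff hd a).2 h.1
  exact ⟨hT, ce_summable a_pack hd hT h.2⟩

theorem density_of {d n : ℕ} (hd : 2 ≤ d) {p : (Fin n → ℂ) → Coeffs d} {Λ : Set (Fin n → ℂ)}
    (hΛ : IsOpen Λ) (hp : DifferentiableOn ℂ p Λ) {x : Fin n → ℂ} (hx : x ∈ Λ)
    (h : TameOrCE (p x)) (hT : Transversal p x) :
    DensityOne {y | p y ∈ hyperbolic d} (2 * (d - 1)) x := by
  obtain ⟨⟨𝒱, h1, h2, h3⟩, h4⟩ := pfamA a_pack a_PUIS Pool.Agent.H591.TF207.t_INSTG hd hΛ hx hp
    ((deg_iff hd (p x)).2 h.1) h.2 hT
  rw [hyp_eq hd]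
  refine ⟨⟨𝒱, h1, h2, h3⟩, ?_⟩
  refine h4.congr fun r => ?_
  congr 2
  ext y
  exact and_comm

theorem null_of {d n : ℕ} (hd : 2 ≤ d) {p : (Fin n → ℂ) → Coeffs d} {Λ : Set (Fin n → ℂ)}
    (hΛ : IsOpen Λ) (hp : DifferentiableOn ℂ p Λ) :
    volume {x | x ∈ Λ ∧ TameOrCE (p x) ∧ Transversal p x ∧ p x ∉ hyperbolic d} = 0 := by
  rw [hyp_eq hd]
  exact pnull a_pack a_PUIS Pool.Agent.H591.TF207.t_INSTG hd hΛ hp (fun _ h => h.1)
    (fun x h => (ce_data hd h.2.1).1) (fun x h => (ce_data hd h.2.1).2.1)
    (fun x h => (ce_data hd h.2.1).2.2.1) (fun x h => (ce_data hd h.2.1).2.2.2)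
    (fun _ h => h.2.2.1) fun _ h => h.2.2.2

theorem full_of {d : ℕ} (hd : 2 ≤ d) {a : Coeffs d} (h : TameOrCE a) :
    Transversal (fun y : Fin (d + 1) → ℂ => (y : Coeffs d)) a := by
  obtain ⟨g1, g2, g3, -⟩ := ce_data hd h
  refine pfamB (p := fun y : Fin (d + 1) → ℂ => (y : Coeffs d)) (x := a) a_pack hd
    differentiableAt_id g1 g2 g3 (R := []) (fun ρ hρ => absurd hρ (by simp)) ?_
  intro H u κ hH _ _
  obtain ⟨v, hv⟩ := exists_pol hH
  refine ⟨v, 0, 0, ?_⟩
  have h1 : fderiv ℂ (fun y : Fin (d + 1) → ℂ => (y : Coeffs d)) a v = v := by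
    rw [fderiv_fun_id]
    rfl
  rw [h1, hv]
  simp [conjP]

theorem full_null {d : ℕ} (hd : 2 ≤ d) :
    volume {a : Coeffs d | TameOrCE a ∧ a ∉ hyperbolic d} = 0 := by
  refine measure_mono_null ?_ (null_of (p := fun y : Fin (d + 1) → ℂ => (y : Coeffs d)) hd
    isOpen_univ differentiableOn_id)
  rintro a ⟨h1, h2⟩
  exact ⟨Set.mem_univ a, h1, full_of hd h1, h2⟩

theorem ind_of {d s N : ℕ} {a : Coeffs d} {e : Fin s → ℂ} (hinj : Function.Injective e)
    (hce : ∀ i, (derivative (poly a)).eval (e i) = 0) {ρ : Fin N → OrbitRelation s}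
    (hind : Independent a e ρ) :
    LinearIndependent ℂ fun l => dvP (poly a) (e (ρ l).i) (ρ l).n -
      dvP (poly a) (e (ρ l).i') (ρ l).n' := by
  rcases hind with h | ⟨h1, h2⟩
  · simp only [formalSum_eq] at h
    exact h
  · have h3 := indep_critP (T := poly a) (c := fun l => e (ρ l).i)
      (c' := fun l => e (ρ l).i') (n := fun l => (ρ l).n) (fun l => hce _) (fun l => hce _)
      (fun l => (h1 l).1) (fun a b hab => h2 (hinj hab))
    have h4 : ∀ l, (ρ l).n' = 0 := fun l => (h1 l).2
    simp only [h4]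
    exact h3

theorem slice_of {d m s N : ℕ} (hd : 2 ≤ d) {p : (Fin m → ℂ) → Coeffs d}
    {c : (Fin m → ℂ) → Fin s → ℂ} {ρ : Fin N → OrbitRelation s} {x : Fin m → ℂ}
    (h : TameOrCE (p x)) (hs : IsSlice p c ρ x) : Transversal p x := by
  obtain ⟨h2, h3, h4, h5, h6, h7, h8, h9⟩ := hs
  obtain ⟨g1, g2, g3, -⟩ := ce_data hd h
  exact pfamF a_pack a_LINP a_SOLP Pool.Agent.H788.TF207.t_PFX
    Pool.Agent.H650.TF207.t_INV0 Pool.Agent.H353.TF207.GOODX.t_GOODX a_ORBP a_HDP a_DVP
    a_CKR a_DRL hd h2 g1 g2 g3 h3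
    (h4.mono fun y hy => hy.1) h6 (ρ := fun l => (⟨(ρ l).i, (ρ l).n, (ρ l).i', (ρ l).n'⟩ : RI s))
    (h4.mono fun y hy => hy.2) h7 (ind_of h5 h4.self_of_nhds.1 h8) h9

theorem cubic_trans {Λ : Set (Fin 1 → ℂ)} {a b : (Fin 1 → ℂ) → ℂ} {n : ℕ} (hn : 1 ≤ n)
    (hΛ : IsOpen Λ) (ha : DifferentiableOn ℂ a Λ) (hb : DifferentiableOn ℂ b Λ)
    (hne : ∀ s ∈ Λ, fderiv ℂ a s ≠ 0 ∨ fderiv ℂ b s ≠ 0)
    (hper : ∀ s ∈ Λ, (map (cubic (a s) (b s)))^[n] (a s) = a s) {x : Fin 1 → ℂ} (hx : x ∈ Λ)
    (h : TameOrCE (cubic (a x) (b x))) :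
    Transversal (fun s => cubic (a s) (b s)) x :=
  pfamE a_pack a_LINP a_SOLP Pool.Agent.H788.TF207.t_PFX
    Pool.Agent.H650.TF207.t_INV0 Pool.Agent.H353.TF207.GOODX.t_GOODX a_ORBP a_HDP a_DVP
    a_CKR a_DRL a_LAG ((ha x hx).differentiableAt (hΛ.mem_nhds hx))
    ((hb x hx).differentiableAt (hΛ.mem_nhds hx)) hn (hne x hx)
    (Filter.mem_of_superset (hΛ.mem_nhds hx) hper) (ce_data (by norm_num) h).2.1
    (ce_data (by norm_num) h).2.2.1

theorem cubic_ce {a b : ℂ} {n : ℕ} (hn : 1 ≤ n) (hper : (map (cubic a b))^[n] a = a)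
    (h : CE (cubic a b) (-a)) : TameOrCE (cubic a b) := by
  refine ⟨(deg_iff (by norm_num) _).1 (cub_deg a b), fun c hc => ?_⟩
  have hcr : ∀ c : ℂ, Critical (cubic a b) c → c = a ∨ c = -a := by
    intro c hc
    have h1 : (derivative (Pool.Agent.H211.LD.pol (cubP a b))).eval c = 0 := hc
    rw [cub_der] at h1
    simp only [eval_sub, eval_mul, eval_C, eval_pow, eval_X] at h1
    have h2 : (c - a) * (c + a) = 0 := by linear_combination (1 / 3 : ℂ) * h1
    rcases mul_eq_zero.1 h2 with h3 | h3
    · exact Or.inl (sub_eq_zero.1 h3)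
    · exact Or.inr (eq_neg_of_add_eq_zero_left h3)
  have ha : Critical (cubic a b) a := by
    change (derivative (Pool.Agent.H211.LD.pol (cubP a b))).eval a = 0
    rw [cub_der]
    simp
  rcases hcr c hc with rfl | rfl
  · exact Or.inl (Or.inr (atr_of_per hn ha hper))
  · exact Or.inr h

theorem cubic_diff {Λ : Set (Fin 1 → ℂ)} {a b : (Fin 1 → ℂ) → ℂ} (ha : DifferentiableOn ℂ a Λ)
    (hb : DifferentiableOn ℂ b Λ) (hΛ : IsOpen Λ) :
    DifferentiableOn ℂ (fun s => cubic (a s) (b s)) Λ := fun x hx =>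
  (cub_diff ((ha x hx).differentiableAt (hΛ.mem_nhds hx))
    ((hb x hx).differentiableAt (hΛ.mem_nhds hx))).1.differentiableWithinAt

/-- **Collet-Eckmann polynomials in transversal families, in strata and in slices.** -/
theorem result :
    (∀ d : ℕ, 2 ≤ d →
    -- (0) the space of all polynomials of degree `d`
    ((∀ a : Coeffs d, TameOrCE a → DensityOne (hyperbolic d) (2 * (d - 1)) a) ∧
      volume {a : Coeffs d | TameOrCE a ∧ a ∉ hyperbolic d} = 0) ∧
    -- (1) transversal families
    (∀ (n : ℕ) (Λ : Set (Fin n → ℂ)) (p : (Fin n → ℂ) → Coeffs d), IsOpen Λ →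
      DifferentiableOn ℂ p Λ →
      (∀ x ∈ Λ, TameOrCE (p x) → Transversal p x →
        DensityOne {y | p y ∈ hyperbolic d} (2 * (d - 1)) x) ∧
      volume {x | x ∈ Λ ∧ TameOrCE (p x) ∧ Transversal p x ∧ p x ∉ hyperbolic d} = 0) ∧
    -- (2) strata
    (∀ a : Coeffs d, a (Fin.last d) ≠ 0 → Dense {z : ℂ | Tame a z} →
      ∀ (r N : ℕ) (e : Fin r → ℂ) (ρ : Fin N → OrbitRelation r), Function.Injective e →
      (∀ z : ℂ, Critical a z ↔ ∃ i, e i = z) → (∀ l, (ρ l).Holds a e) → Independent a e ρ →
      ∃ (n : ℕ) (Ψ : (Fin n → ℂ) → Coeffs d) (c : (Fin n → ℂ) → Fin r → ℂ)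
        (U : Set (Fin n → ℂ)),
        n + N = (Finset.univ.image fun i => map a (e i)).card + 2 ∧ IsChart a e ρ Ψ c U ∧
        (∀ t ∈ U, TameOrCE (Ψ t) → (∀ l, (ρ l).Free (Ψ t) (c t)) →
          Transversal Ψ t ∧ DensityOne {s | Ψ s ∈ hyperbolic d} (2 * (d - 1)) t) ∧
        volume {t | t ∈ U ∧ TameOrCE (Ψ t) ∧ (∀ l, (ρ l).Free (Ψ t) (c t)) ∧
          Ψ t ∉ hyperbolic d} = 0) ∧
    -- (3) slices of the largest possible dimension are transversal
    (∀ (m s N : ℕ) (p : (Fin m → ℂ) → Coeffs d) (c : (Fin m → ℂ) → Fin s → ℂ)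
      (ρ : Fin N → OrbitRelation s) (x : Fin m → ℂ), TameOrCE (p x) →
      IsSlice p c ρ x → Transversal p x)) ∧
    -- (4) Milnor's curves of cubic polynomials with a periodic critical point
    (∀ (n : ℕ) (Λ : Set (Fin 1 → ℂ)) (a b : (Fin 1 → ℂ) → ℂ), 1 ≤ n → IsOpen Λ →
      DifferentiableOn ℂ a Λ → DifferentiableOn ℂ b Λ →
      (∀ s ∈ Λ, fderiv ℂ a s ≠ 0 ∨ fderiv ℂ b s ≠ 0) →
      (∀ s ∈ Λ, (map (cubic (a s) (b s)))^[n] (a s) = a s) →
      (∀ s ∈ Λ, CE (cubic (a s) (b s)) (-a s) →
        DensityOne {t | cubic (a t) (b t) ∈ hyperbolic 3} 4 s) ∧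
      volume {s | s ∈ Λ ∧ CE (cubic (a s) (b s)) (-a s) ∧
        cubic (a s) (b s) ∉ hyperbolic 3} = 0) := by
  refine ⟨fun d hd => ⟨⟨fun a h => density_of hd isOpen_univ differentiableOn_id
      (Set.mem_univ a) h (full_of hd h), full_null hd⟩, fun n Λ p hΛ hp =>
    ⟨fun a ha h hT => density_of hd hΛ hp ha h hT, null_of hd hΛ hp⟩, ?_,
      fun m s N p c ρ x h hs => slice_of hd h hs⟩, ?_⟩
  · intro a ha hdense r N e ρ he hall hρ hind
    have hce : ∀ i, (derivative (poly a)).eval (e i) = 0 := fun i => (hall _).2 ⟨i, rfl⟩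
    obtain ⟨n, Ψ, c, U, g1, g2, g3, g4, g5, g6, g7, g8, g9, g10, g11, g12⟩ :=
      pfamC (d := d) (x := a) a_pack a_LINP a_SOLP Pool.Agent.H788.TF207.t_PFX
        Pool.Agent.H650.TF207.t_INV0 Pool.Agent.H353.TF207.GOODX.t_GOODX a_ORBP a_HDP a_DVP hd
        ((deg_iff hd a).2 ha) hdense he hall
        (ρ := fun l => (⟨(ρ l).i, (ρ l).n, (ρ l).i', (ρ l).n'⟩ : RI r)) hρ
        (ind_of he hce hind)
    have hT : ∀ t ∈ U, TameOrCE (Ψ t) → (∀ l, (ρ l).Free (Ψ t) (c t)) →
        Transversal Ψ t := fun t ht h hF =>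
      (g12 t ht).2 (ce_data hd h).2.1 (ce_data hd h).2.2.1 hF
    refine ⟨n, Ψ, c, U, g1, ⟨g2, g3, g4, g5, g6, g7, g8, g9, g10, g11⟩,
      fun t ht h hF => ⟨hT t ht h hF, density_of hd g2 g4 ht h (hT t ht h hF)⟩, ?_⟩
    refine measure_mono_null ?_ (null_of hd g2 g4)
    rintro t ⟨ht, h, hF, hn⟩
    exact ⟨ht, h, hT t ht h hF, hn⟩
  · intro n Λ a b hn hΛ ha hb hne hper
    have hd : 2 ≤ 3 := by norm_num
    have hp := cubic_diff ha hb hΛ
    refine ⟨fun s hs h => ?_, measure_mono_null ?_ (null_of hd hΛ hp)⟩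
    · have h1 := cubic_ce hn (hper s hs) h
      exact density_of hd hΛ hp hs h1 (cubic_trans hn hΛ ha hb hne hper hs h1)
    · rintro s ⟨hs, h, h2⟩
      have h1 := cubic_ce hn (hper s hs) h
      exact ⟨hs, h1, cubic_trans hn hΛ ha hb hne hper hs h1, h2⟩

end Pool.Agent.Results.MP_28f8a1_an.ColletEckmannFamilies
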