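import Pool.Agent.H211.AD.PFin

/-!
# Collet-Eckmann polynomials are Lebesgue density points of hyperbolicity

Let `T` be a polynomial of degree `d ≥ 2` such that every critical point which neither escapes nor is
attracted by a sink satisfies the Collet-Eckmann condition. This is the only hypothesis: the critical
points may be multiple, there may be several of them, they may be recurrent to each other at any
speed (no condition of slow recurrence), and nothing is assumed about the Julia set. We show:

(1) almost every point of the plane escapes or is attracted by a sink of `T`;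

(2) for every polynomial `H` of degree at most `d`, outside at most `2 (d - 1)` proper subspaces, the
area of the set of the `s` with `|s| < r` for which `T + s H` is not hyperbolic is at most `C r ^ (2 + c)`,
for some `c, C > 0` and all small `r`, so its proportion in the disc of radius `r` is `O (r ^ c)`;

(3) in the full space of the coefficients `T` is a Lebesgue density point of the set of the hyperbolic
polynomials.

If every critical point of `T` escapes or is Collet-Eckmann, then the same is true with `the critical
points all escape` instead of `hyperbolic`, and almost every point of the plane escapes.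

Method. (a) By pulling back balls along orbits, with loss of radius, and using the Collet-Eckmann
condition each time when a critical value is hit, the area of the points whose `n`-th iterate is
near the set `K` of the points that are not attracted decays exponentially with `n`. (b) A curve of
parameters is followed until it has definite size relative to its distance from the critical points;
near a critical point it is split into many small pieces, most of which have a larger size relative
to their distance; after finitely many steps of this kind the size is a small power of the scale and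
(a) applies.
-/

set_option autoImplicit false

open MeasureTheory Filter Metric Topology
open scoped ENNReal

namespace Pool.Agent.Results.MP_28f8a1_an.LebesgueDensityColletEckmann

/-- The polynomial `a_d z ^ d + … + a_1 z + a_0`. -/
def map {d : ℕ} (a : Fin (d + 1) → ℂ) : ℂ → ℂ := fun z => ∑ i, a i * z ^ (i : ℕ)

/-- The orbit of `z` escapes to infinity. -/
def Escapes (f : ℂ → ℂ) (z : ℂ) : Prop := Tendsto (fun k : ℕ => ‖f^[k] z‖) atTop atTop

/-- The orbit of `z` is attracted by a sink of `f`. -/
def Attracted (f : ℂ → ℂ) (z : ℂ) : Prop :=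
  ∃ n : ℕ, 0 < n ∧ ∃ x : ℂ, f^[n] x = x ∧ ‖deriv (f^[n]) x‖ < 1 ∧
    Tendsto (fun k : ℕ => f^[n * k] z) atTop (𝓝 x)

/-- The coefficients of the hyperbolic polynomials: every critical point escapes or is attracted by a
sink. -/
def hyperbolic (d : ℕ) : Set (Fin (d + 1) → ℂ) :=
  {a | ∀ c : ℂ, deriv (map a) c = 0 → Escapes (map a) c ∨ Attracted (map a) c}

/-- The coefficients of the polynomials all of whose critical points escape. -/
def shiftLocus (d : ℕ) : Set (Fin (d + 1) → ℂ) :=
  {a | ∀ c : ℂ, deriv (map a) c = 0 → Escapes (map a) c}

/-- The Collet-Eckmann condition for the critical point `c` of `f`: the derivatives of the iterates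
of `f` at the critical value grow exponentially. -/
def ColletEckmann (f : ℂ → ℂ) (c : ℂ) : Prop :=
  ∃ μ : ℝ, 1 < μ ∧ ∀ᶠ n : ℕ in atTop, μ ^ n ≤ ‖deriv (f^[n]) (f c)‖

/-- The polynomial `a` is a Lebesgue density point of the set `S` of polynomials: with a power rate in
every complex line through `a` with a direction outside at most `2 (d - 1)` proper subspaces, and in
the full space of the coefficients (balls for the maximum norm). -/
def DensityOne {d : ℕ} (S : Set (Fin (d + 1) → ℂ)) (a : Fin (d + 1) → ℂ) : Prop :=
  (∃ 𝒱 : Finset (Submodule ℂ (Fin (d + 1) → ℂ)), 𝒱.card ≤ 2 * (d - 1) ∧ (∀ V ∈ 𝒱, V ≠ ⊤) ∧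
    ∀ b : Fin (d + 1) → ℂ, (∀ V ∈ 𝒱, b ∉ V) →
      ∃ c > (0 : ℝ), ∃ C > (0 : ℝ), ∃ r₁ > (0 : ℝ), ∀ r : ℝ, 0 < r → r < r₁ →
        volume {s : ℂ | ‖s‖ < r ∧ a + s • b ∉ S} ≤ ENNReal.ofReal (C * r ^ ((2 : ℝ) + c))) ∧
  Tendsto (fun r : ℝ => volume (ball a r \ S) / volume (ball a r)) (𝓝[>] 0) (𝓝 0)

/-- Collet-Eckmann polynomials are Lebesgue density points of the set of the hyperbolic
polynomials. -/
theorem result (d : ℕ) (hd : 2 ≤ d) (a : Fin (d + 1) → ℂ) (ha : a (Fin.last d) ≠ 0) :
    ((∀ c : ℂ, deriv (map a) c = 0 →
        (Escapes (map a) c ∨ Attracted (map a) c) ∨ ColletEckmann (map a) c) →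
      volume {z : ℂ | ¬ (Escapes (map a) z ∨ Attracted (map a) z)} = 0 ∧
        DensityOne (hyperbolic d) a) ∧
    ((∀ c : ℂ, deriv (map a) c = 0 → Escapes (map a) c ∨ ColletEckmann (map a) c) →
      volume {z : ℂ | ¬ Escapes (map a) z} = 0 ∧ DensityOne (shiftLocus d) a) := by
  have hb1 : Pool.Agent.H211.LD.bad Pool.Agent.H792R2.Dyn.Attr d = (hyperbolic d)ᶜ := by
    ext b
    simp only [Pool.Agent.H211.LD.bad, hyperbolic, Set.mem_compl_iff, Set.mem_ofPred_eq]
    push Not
    constructor
    · rintro ⟨c, hc, h⟩
      refine ⟨c, hc, ?_⟩
      have h' : ¬ (Escapes (map b) c ∨ Attracted (map b) c) := h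
      push Not at h'
      exact h'
    · rintro ⟨c, hc, h⟩
      refine ⟨c, hc, ?_⟩
      rintro (h' | h')
      · exact h.1 h'
      · exact h.2 h'
  have hb2 : Pool.Agent.H211.LD.bad Pool.Agent.H211.AD.Esc d = (shiftLocus d)ᶜ := by
    ext b
    simp only [Pool.Agent.H211.LD.bad, shiftLocus, Set.mem_compl_iff, Set.mem_ofPred_eq]
    push Not
    exact Iff.rfl
  have hsd : ∀ (S : Set (Fin (d + 1) → ℂ)) (r : ℝ), Sᶜ ∩ ball a r = ball a r \ S := by
    intro S r
    rw [Set.inter_comm]
    rfl
  constructor
  · intro hCE
    obtain ⟨h1, h2, h3⟩ := Pool.Agent.H211.AD.pfinal (Or.inl rfl) hd ha hCE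
    rw [hb1] at h2 h3
    simp only [hsd] at h3
    exact ⟨h1, h2, h3⟩
  · intro hCE
    obtain ⟨h1, h2, h3⟩ := Pool.Agent.H211.AD.pfinal (Or.inr rfl) hd ha hCE
    rw [hb2] at h2 h3
    simp only [hsd] at h3
    exact ⟨h1, h2, h3⟩

end Pool.Agent.Results.MP_28f8a1_an.LebesgueDensityColletEckmann
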