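import Mathlib
import Pool.Agent.H214.Tri.Glue

/-!
# Almost all trinomials `z ^ n + lam z + t` of large degree are hyperbolic

For a fixed `lam ≠ 0` the trinomial `z ^ n + lam z + t` has `n - 1` different critical points with
different critical values.  We show that the area of the set of the
`t` for which it is not hyperbolic is at most `K n ^ (-1/10)`, uniformly for `lam` in the compact subsets
of `|lam| ≠ 0, 1`.

Idea.  All the critical points are near the unit circle.  Inside the unit disc the map is very close to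
the affine map `z ↦ lam z + t`, outside it points escape, and what happens is decided by the passages
of the critical orbits through the annulus `B` of width `log n / n` about the unit circle.  In this
annulus the map is wild, but a point of a critical orbit which is there depends on `t` with a large
derivative after one more step, so that a second visit of the same orbit to `B` is improbable: the sum of
the areas of the sets of the `t` for which a critical orbit visits `B` twice, or visits `B` and then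
passes near the (repelling) fixed point of the affine map, tends to `0` even though there are `n - 1`
critical points and `O (log n) ^ 2` pairs of times.  An orbit with only one visit escapes or, if
`|lam| < 1` and `|t| < |1 - lam|`, converges to the fixed point near `t / (1 - lam)`.
-/

set_option autoImplicit false

open Polynomial Filter Topology MeasureTheory

namespace Pool.Agent.Results.MP_28f8a1_an.TrinomialsAlmostAllHyperbolic

/-- The polynomial as a self-map of the plane. -/
def map (T : ℂ[X]) : ℂ → ℂ := fun w : ℂ => T.eval w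

/-- The orbit of `z` escapes to infinity. -/
def Escapes (T : ℂ[X]) (z : ℂ) : Prop :=
  Tendsto (fun k : ℕ => ‖(map T)^[k] z‖) atTop atTop

/-- The orbit of `z` is attracted by a sink (attracting periodic point) of `T`. -/
def Attracted (T : ℂ[X]) (z : ℂ) : Prop :=
  ∃ p : ℕ, 0 < p ∧ ∃ x : ℂ, (map T)^[p] x = x ∧ ‖deriv ((map T)^[p]) x‖ < 1 ∧
    Tendsto (fun k : ℕ => (map T)^[p * k] z) atTop (𝓝 x)

/-- `T` is hyperbolic: every critical point escapes or is attracted by a sink. -/
def Hyperbolic (T : ℂ[X]) : Prop :=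
  ∀ c : ℂ, (derivative T).eval c = 0 → Escapes T c ∨ Attracted T c

/-- The trinomial `z ^ n + lam z + t`. -/
noncomputable def trinomial (n : ℕ) (lam t : ℂ) : ℂ[X] := X ^ n + C lam * X + C t

/-- The trinomial `z ^ n + lam z + t` is hyperbolic and, if `|lam| > 1` or `|t| > |1 - lam|`, all its
critical points escape (so that its Julia set is a Cantor set). -/
def Tame (n : ℕ) (lam t : ℂ) : Prop :=
  Hyperbolic (trinomial n lam t) ∧
    (1 < ‖lam‖ ∨ ‖1 - lam‖ < ‖t‖ →
      ∀ c : ℂ, (derivative (trinomial n lam t)).eval c = 0 → Escapes (trinomial n lam t) c)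

theorem map_trinomial (n : ℕ) (lam t : ℂ) :
    map (trinomial n lam t) = Pool.Agent.H214.Tri.f n lam t := by
  funext w
  simp [map, trinomial, Pool.Agent.H214.Tri.f]

theorem derivative_trinomial (n : ℕ) (lam t c : ℂ) :
    (derivative (trinomial n lam t)).eval c = n * c ^ (n - 1) + lam := by
  simp [trinomial, derivative_X_pow]

theorem tame_of_good {n : ℕ} {lam t : ℂ} (hl : lam ≠ 1) (h : Pool.Agent.H214.Tri.Good n lam t) :
    Tame n lam t := by
  refine ⟨fun c hc => ?_, fun hcase c hc => ?_⟩
  · rw [derivative_trinomial] at hc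
    rcases h c hc with h1 | ⟨-, -, x, h2, h3, h4⟩
    · left
      unfold Escapes
      rw [map_trinomial]
      exact h1
    · right
      refine ⟨1, one_pos, x, ?_, ?_, ?_⟩
      · rw [map_trinomial, Function.iterate_one]; exact h2
      · rw [map_trinomial, Function.iterate_one]; exact h3
      · rw [map_trinomial]
        simpa using h4
  · rw [derivative_trinomial] at hc
    rcases h c hc with h1 | ⟨h1, h2, -⟩
    · unfold Escapes
      rw [map_trinomial]
      exact h1
    · exfalso
      have h3 : 0 < ‖1 - lam‖ := norm_pos_iff.2 (sub_ne_zero.2 (Ne.symm hl))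
      rw [norm_div, div_lt_one h3] at h2
      rcases hcase with h4 | h4
      · linarith
      · linarith

/-- **Almost all trinomials `z ^ n + lam z + t` of large degree are hyperbolic.**

(1) Let `R > 1`. There are `K` and `n₀` such that for all `n ≥ n₀` and all `lam` with
`1 / R ≤ |lam| ≤ R` and `||lam| - 1| ≥ 1 / R`: the area of the set of all `t` for which
`z ^ n + lam z + t` is not tame is at most `K n ^ (-1/10)`, and every `t` is within `K n ^ (-1/20)` of
some `t'` for which `z ^ n + lam z + t'` is tame.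

(2) If `|lam| ≠ 0, 1`, then for almost every `t`, for all large `N`, there are at most `N ^ (10/11)`
degrees `n < N` for which `z ^ n + lam z + t` is not tame.

(3) For every `R`, the integral over `|lam| < R` of the area of the set of all `t` for which
`z ^ n + lam z + t` is not tame tends to `0` as `n` tends to infinity. -/
theorem result :
    (∀ R : ℝ, 1 < R → ∃ K : ℝ, 0 < K ∧ ∃ n₀ : ℕ, ∀ n : ℕ, n₀ ≤ n → ∀ lam : ℂ,
      1 / R ≤ ‖lam‖ → ‖lam‖ ≤ R → 1 / R ≤ |‖lam‖ - 1| →
        volume {t : ℂ | ¬ Tame n lam t} ≤ ENNReal.ofReal (K * (n : ℝ) ^ (-(1 / 10) : ℝ)) ∧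
        ∀ t : ℂ, ∃ t' : ℂ, ‖t' - t‖ ≤ K * (n : ℝ) ^ (-(1 / 20) : ℝ) ∧ Tame n lam t') ∧
    (∀ lam : ℂ, lam ≠ 0 → ‖lam‖ ≠ 1 → ∀ᵐ t : ℂ, ∀ᶠ N : ℕ in atTop,
      ({n : ℕ | n < N ∧ ¬ Tame n lam t}.ncard : ℝ) ≤ (N : ℝ) ^ (10 / 11 : ℝ)) ∧
    (∀ R : ℝ, Tendsto (fun n : ℕ => ∫⁻ lam in Metric.ball (0 : ℂ) R,
      volume {t : ℂ | ¬ Tame n lam t}) atTop (𝓝 0)) := by
  have hne1 : ∀ lam : ℂ, ‖lam‖ ≠ 1 → lam ≠ 1 := by
    intro lam h h1
    exact h (by rw [h1, norm_one])
  have key : ∀ R : ℝ, 1 < R → ∃ K : ℝ, 0 < K ∧ ∃ n₀ : ℕ, ∀ n : ℕ, n₀ ≤ n → ∀ lam : ℂ,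
      1 / R ≤ ‖lam‖ → ‖lam‖ ≤ R → 1 / R ≤ |‖lam‖ - 1| →
        volume {t : ℂ | ¬ Tame n lam t} ≤ ENNReal.ofReal (K * (n : ℝ) ^ (-(1 / 10) : ℝ)) := by
    intro R hR
    have hR0 : 0 < R := by linarith
    obtain ⟨K, hK, n₀, h⟩ := Pool.Agent.H214.Tri.area_bound (R := max R 2) (le_max_right _ _)
    refine ⟨K, hK, n₀, fun n hn lam h1 h2 h3 => ?_⟩
    have hinv : 1 / max R 2 ≤ 1 / R := one_div_le_one_div_of_le hR0 (le_max_left _ _)
    have hrng : Pool.Agent.H214.Tri.Rng (max R 2) ‖lam‖ :=
      ⟨le_max_right _ _, hinv.trans h1, h2.trans (le_max_left _ _), hinv.trans h3⟩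
    have hlne : ‖lam‖ ≠ 1 := by
      intro h4
      rw [h4, sub_self, abs_zero] at h3
      have : 0 < 1 / R := by positivity
      linarith
    refine (measure_mono ?_).trans (h n hn lam hrng)
    intro t ht hg
    exact ht (tame_of_good (hne1 lam hlne) hg)
  refine ⟨?_, ?_, ?_⟩
  · intro R hR
    obtain ⟨K, hK, n₀, h⟩ := key R hR
    refine ⟨K + 1, by linarith, max n₀ 1, fun n hn lam h1 h2 h3 => ?_⟩
    have hn0 : n₀ ≤ n := (le_max_left _ _).trans hn
    have hn1 : 1 ≤ n := (le_max_right _ _).trans hn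
    have hnr : (0 : ℝ) < n := by exact_mod_cast hn1
    have hv := h n hn0 lam h1 h2 h3
    have hp : 0 < (n : ℝ) ^ (-(1 / 20) : ℝ) := by positivity
    have hp2 : (n : ℝ) ^ (-(1 / 10) : ℝ) = ((n : ℝ) ^ (-(1 / 20) : ℝ)) ^ 2 := by
      rw [← Real.rpow_natCast, ← Real.rpow_mul hnr.le]
      norm_num
    refine ⟨hv.trans (ENNReal.ofReal_le_ofReal ?_), ?_⟩
    · apply mul_le_mul_of_nonneg_right (by linarith)
      positivity
    · intro t
      exact Pool.Agent.H214.Tri.exists_near (S := {t : ℂ | Tame n lam t}) (A := K * (n : ℝ) ^ (-(1 / 10) : ℝ))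
        hv (by positivity) (by
          rw [hp2, mul_pow]
          apply mul_le_mul_of_nonneg_right _ (by positivity)
          nlinarith) t
  · intro lam hl0 hl1
    have hl0' : 0 < ‖lam‖ := norm_pos_iff.2 hl0
    have hl1' : 0 < |‖lam‖ - 1| := abs_pos.2 (sub_ne_zero.2 hl1)
    set R : ℝ := 2 + ‖lam‖ + 1 / ‖lam‖ + 1 / |‖lam‖ - 1| with hR
    have i1 : 0 < 1 / ‖lam‖ := by positivity
    have i2 : 0 < 1 / |‖lam‖ - 1| := by positivity
    have hR1 : 1 < R := by linarith
    obtain ⟨K, hK, n₀, h⟩ := key R hR1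
    have b1 : 1 / R ≤ ‖lam‖ := by
      rw [div_le_comm₀ (by linarith) hl0']
      linarith
    have b2 : ‖lam‖ ≤ R := by linarith
    have b3 : 1 / R ≤ |‖lam‖ - 1| := by
      rw [div_le_comm₀ (by linarith) hl1']
      linarith
    exact Pool.Agent.H214.Tri.ae_count (B := fun n => {t : ℂ | ¬ Tame n lam t}) hK.le
      (fun n hn => h n hn lam b1 b2 b3)
  · intro R
    refine tendsto_of_tendsto_of_tendsto_of_le_of_le' tendsto_const_nhds
      (Pool.Agent.H214.Tri.tendsto_avg R) (Eventually.of_forall fun n => bot_le)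
      (Eventually.of_forall fun n => ?_)
    -- the circle `‖lam‖ = 1` is a null set
    have hnull : ∀ᵐ lam : ℂ, lam ≠ 1 := by
      rw [ae_iff]
      simp
    apply lintegral_mono_ae
    filter_upwards [ae_restrict_of_ae hnull] with lam hlam
    apply measure_mono
    intro t ht hg
    exact ht (tame_of_good hlam hg)

end Pool.Agent.Results.MP_28f8a1_an.TrinomialsAlmostAllHyperbolic
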