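import Pool.Agent.H211.LD.Weak

/-!
# Weakly expanding polynomials are points of upper density one of hyperbolicity

Let `T` be a polynomial of degree `d ≥ 2` such that almost every point of the plane escapes or is
attracted by a sink. Suppose that `T` is weakly expanding: for a rate `μ > 1` there are infinitely
many `n` such that for every critical point `c` which neither escapes nor is attracted the derivative
of some iterate `T ^ m`, `m ≤ n`, at the critical value is at least `μ ^ n`; and for the simple ones
the inverses of the derivatives are summable. So the derivatives may be small, and the critical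
points may be strongly recurrent, at most of the times.

For a set `S` of polynomials, let `p (k)` be the proportion of the polynomials which are NOT in `S`
among the polynomials `T + s H`, `|s| < 2 ^ (- k)`, or among all the polynomials whose coefficients
are within `2 ^ (- k)` of those of `T`. We show that the lower limit of the means
`(p (0) + … + p (N - 1)) / N` is zero for the set `S` of the hyperbolic polynomials:

(1) in the direction `H`, for every `H` of degree at most `d` outside the union of at most
`2 (d - 1)` proper subspaces;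

(2) in the full space of the coefficients.

In particular the upper Lebesgue density of the set of the hyperbolic polynomials at `T` is one. If
almost every point of the plane escapes then the same is true for the set `S` of the polynomials all
of whose critical points escape.
-/

set_option autoImplicit false

open MeasureTheory Filter Metric Topology
open scoped ENNReal

namespace Pool.Agent.Results.MP_28f8a1_an.UpperDensityWeaklyExpanding

/-- The polynomial `a_d z ^ d + … + a_1 z + a_0`. -/
def map {d : ℕ} (a : Fin (d + 1) → ℂ) : ℂ → ℂ := fun z => ∑ i, a i * z ^ (i : ℕ)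

/-- The orbit of `z` escapes to infinity. -/
def Escapes (f : ℂ → ℂ) (z : ℂ) : Prop := Tendsto (fun k : ℕ => ‖f^[k] z‖) atTop atTop

/-- The orbit of `z` escapes, or it is attracted by a sink of `f`. -/
def EscapesOrAttracted (f : ℂ → ℂ) (z : ℂ) : Prop :=
  Escapes f z ∨ ∃ n : ℕ, 0 < n ∧ ∃ x : ℂ, f^[n] x = x ∧ ‖deriv (f^[n]) x‖ < 1 ∧
    Tendsto (fun k : ℕ => f^[n * k] z) atTop (𝓝 x)

/-- The coefficients of the polynomials all of whose critical points are good. -/
def goodSet (Good : (ℂ → ℂ) → ℂ → Prop) (d : ℕ) : Set (Fin (d + 1) → ℂ) :=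
  {a | ∀ c : ℂ, deriv (map a) c = 0 → Good (map a) c}

/-- Weak expansion of `f` along the orbits of the critical values. -/
def WeaklyExpanding (Good : (ℂ → ℂ) → ℂ → Prop) (f : ℂ → ℂ) : Prop :=
  (∃ μ : ℝ, 1 < μ ∧ ∃ᶠ n : ℕ in atTop, ∀ c : ℂ, deriv f c = 0 →
    Good f c ∨ ∃ m ≤ n, μ ^ n ≤ ‖deriv (f^[m]) (f c)‖) ∧
  ∀ c : ℂ, deriv f c = 0 → Good f c ∨ deriv (deriv f) c = 0 ∨
    Summable fun m : ℕ => ‖deriv (f^[m]) (f c)‖⁻¹

/-- The proportion, in the disc of radius `2 ^ (- k)`, of the `s` for which `a + s b` is not in
`S`. -/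
noncomputable def lineProportion {d : ℕ} (S : Set (Fin (d + 1) → ℂ)) (a b : Fin (d + 1) → ℂ)
    (k : ℕ) : ℝ≥0∞ :=
  volume {s : ℂ | s ∈ ball (0 : ℂ) ((1 / 2) ^ k) ∧ a + s • b ∉ S} /
    volume (ball (0 : ℂ) ((1 / 2) ^ k))

/-- The proportion, among the vectors with coordinates within `2 ^ (- k)` of those of `a`, of the
vectors which are not in `S`. -/
noncomputable def spaceProportion {d : ℕ} (S : Set (Fin (d + 1) → ℂ)) (a : Fin (d + 1) → ℂ)
    (k : ℕ) : ℝ≥0∞ :=
  volume {b | b ∉ S ∧ b ∈ ball a ((1 / 2) ^ k)} / volume (ball a ((1 / 2) ^ k))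

/-- The mean of the first `N` terms. -/
noncomputable def mean (x : ℕ → ℝ≥0∞) (N : ℕ) : ℝ≥0∞ := (∑ k ∈ Finset.range N, x k) / N

/-- The polynomial `a` is a point of upper logarithmic density one of the set `S` of polynomials: in
almost every complex line through `a`, and in the full space of the coefficients. -/
def UpperDensityOne {d : ℕ} (S : Set (Fin (d + 1) → ℂ)) (a : Fin (d + 1) → ℂ) : Prop :=
  (∃ 𝒱 : Finset (Submodule ℂ (Fin (d + 1) → ℂ)), 𝒱.card ≤ 2 * (d - 1) ∧ (∀ V ∈ 𝒱, V ≠ ⊤) ∧
    ∀ b : Fin (d + 1) → ℂ, (∀ V ∈ 𝒱, b ∉ V) →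
      liminf (fun N : ℕ => mean (lineProportion S a b) N) atTop = 0) ∧
  liminf (fun N : ℕ => mean (spaceProportion S a) N) atTop = 0

/-- Weakly expanding polynomials are points of upper logarithmic density one of the set of the
hyperbolic polynomials. -/
theorem result (d : ℕ) (hd : 2 ≤ d) (a : Fin (d + 1) → ℂ) (ha : a (Fin.last d) ≠ 0) :
    (volume {z : ℂ | ¬ EscapesOrAttracted (map a) z} = 0 →
      WeaklyExpanding EscapesOrAttracted (map a) →
      UpperDensityOne (goodSet EscapesOrAttracted d) a) ∧
    (volume {z : ℂ | ¬ Escapes (map a) z} = 0 →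
      WeaklyExpanding Escapes (map a) →
      UpperDensityOne (goodSet Escapes d) a) := by
  have hb : ∀ Good : (ℂ → ℂ) → ℂ → Prop,
      Pool.Agent.H211.LD.bad Good d = (goodSet Good d)ᶜ := by
    intro Good
    ext b
    simp only [Pool.Agent.H211.LD.bad, goodSet, Set.mem_compl_iff, Set.mem_ofPred_eq]
    push Not
    exact Iff.rfl
  constructor
  · rintro hnull ⟨⟨μ, hμ, h1⟩, h2⟩
    have h := Pool.Agent.H211.LD.we_final Pool.Agent.H211.LD.predE_attr hd ha hnull hμ h1 h2
    rw [hb] at h
    exact h
  · rintro hnull ⟨⟨μ, hμ, h1⟩, h2⟩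
    have h := Pool.Agent.H211.LD.we_final Pool.Agent.H211.LD.predE_escape hd ha hnull hμ h1 h2
    rw [hb] at h
    exact h

end Pool.Agent.Results.MP_28f8a1_an.UpperDensityWeaklyExpanding
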